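import Pool.Agent.P.MP_f791b6_an.N3Main

open Pool.Agent.P.MP_f791b6_an in
theorem Pool.Agent.Results.MP_f791b6_an.AllButFinite.result :
    ∀ m : ℕ, ∃ F : Finset (ℕ × ℕ), ∀ n k : ℕ, 3 ≤ n → 1 ≤ k → (n, k) ∉ F →
      ∀ Ω : Set (EuclideanSpace ℝ (Fin n)), IsOpen Ω → Bornology.IsBounded Ω →
        neumannEig Ω (k + n + m) ≤ dirichletEig Ω k :=
  main_finite3
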