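import Pool.Agent.P.MP_f791b6_an.K1Main

open Pool.Agent.P.MP_f791b6_an in
theorem Pool.Agent.Results.MP_f791b6_an.FirstIndex.result :
    ∀ n : ℕ, 2 ≤ n → ∀ Ω : Set (EuclideanSpace ℝ (Fin n)), IsOpen Ω → Bornology.IsBounded Ω →
      neumannEig Ω (n + 1) ≤ dirichletEig Ω 1 :=
  fun _ hn _ ho hb => One.main hn ho hb
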