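import Pool.Agent.P.MP_f791b6_an.Main

open Pool.Agent.P.MP_f791b6_an in
theorem Pool.Agent.Results.MP_f791b6_an.HighDim.result :
    ∀ n : ℕ, 1000 ≤ n → ∀ Ω : Set (EuclideanSpace ℝ (Fin n)), IsOpen Ω → Bornology.IsBounded Ω →
      ∀ k m : ℕ, 1 ≤ k → (m : ℝ) ≤ (101 / 100) ^ n →
        neumannEig Ω (k + m) ≤ dirichletEig Ω k :=
  fun _ hn _ ho hb _ _ hk hm => main hn ho hb hk hm
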