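import Pool.Agent.P.MP_f791b6_an.OddMain

open Pool.Agent.P.MP_f791b6_an in
theorem Pool.Agent.Results.MP_f791b6_an.PlanarOdd.result :
    ∀ Ω : Set (EuclideanSpace ℝ (Fin 2)), IsOpen Ω → Bornology.IsBounded Ω →
      ∀ k : ℕ, Odd k → neumannEig Ω (k + 2) ≤ dirichletEig Ω k :=
  fun _ ho hb _ hk => Odd.main ho hb hk
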